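import Mathlib

/-! Definitions: enumeration operators, e-reducibilities, contiguous degrees. -/

namespace Pool.Agent.Lib.MP_9a6b8c_lc

/-- `D u` is the finite set with canonical index `u`: the set of positions of the
binary digits of `u` that are equal to `1`, so that `u` is the sum of `2 ^ n` over `n ∈ D u`. -/
def D (u : ℕ) : Set ℕ := {n | u.testBit n = true}

/-- An enumeration operator is an r.e. set of pairs `(x, u)`. -/
def IsEnumOp (Ψ : Set (ℕ × ℕ)) : Prop := REPred fun p : ℕ × ℕ => p ∈ Ψ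

/-- The set `Ψ^B` of all `x` such that `(x, u) ∈ Ψ` and `D u ⊆ B` for some `u`. -/
def app (Ψ : Set (ℕ × ℕ)) (B : Set ℕ) : Set ℕ := {x | ∃ u, (x, u) ∈ Ψ ∧ D u ⊆ B}

/-- `eps Ψ x` is the family `ε_x` of all finite sets `D u` with `(x, u) ∈ Ψ`. -/
def eps (Ψ : Set (ℕ × ℕ)) (x : ℕ) : Set (Set ℕ) := {S | ∃ u, (x, u) ∈ Ψ ∧ S = D u}

/-- `A ≤_r B` for a class `r` of operators: `A = Ψ^B` for some `Ψ ∈ r`. -/
def Red (r : Set (Set (ℕ × ℕ))) (A B : Set ℕ) : Prop := ∃ Ψ ∈ r, A = app Ψ B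

/-- The class `r` of enumeration operators gives an e-reducibility: `≤_r` is
reflexive and transitive. -/
structure IsEReducibility (r : Set (Set (ℕ × ℕ))) : Prop where
  isEnumOp : ∀ Ψ ∈ r, IsEnumOp Ψ
  refl : ∀ A : Set ℕ, Red r A A
  trans : ∀ A B C : Set ℕ, Red r A B → Red r B C → Red r A C

/-- The `r`-degree of `A`. -/
def deg (r : Set (Set (ℕ × ℕ))) (A : Set ℕ) : Set (Set ℕ) := {B | Red r B A ∧ Red r A B}

/-- `≤_r` is proper: the `r`-degree of the empty set contains every r.e. set. -/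
def IsProper (r : Set (Set (ℕ × ℕ))) : Prop :=
  ∀ W : Set ℕ, (REPred fun n => n ∈ W) → W ∈ deg r ∅

/-- `a` is a `y`-contiguous `z`-degree: `a` is a `z`-degree different from the `z`-degree
of the empty set, and any two members of `a` are `y`-equivalent. -/
def IsContiguous (y z : Set (Set (ℕ × ℕ))) (a : Set (Set ℕ)) : Prop :=
  (∃ A, a = deg z A) ∧ a ≠ deg z ∅ ∧ ∀ A ∈ a, ∀ B ∈ a, Red y A B ∧ Red y B A

/-- The `s`-operators: every member of every `ε_x` has at most one element. -/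
def sOps : Set (Set (ℕ × ℕ)) := {Ψ | IsEnumOp Ψ ∧ ∀ x, ∀ S ∈ eps Ψ x, S.Subsingleton}

/-- The `pc`-operators: every `ε_x` has at most one member. -/
def pcOps : Set (Set (ℕ × ℕ)) := {Ψ | IsEnumOp Ψ ∧ ∀ x, (eps Ψ x).Subsingleton}

/-- The partial many-one operators: those that are both `s`-operators and `pc`-operators. -/
def pmOps : Set (Set (ℕ × ℕ)) := sOps ∩ pcOps

/-- `A` is semirecursive (Jockusch): some total computable `s` satisfies `s x y ∈ {x, y}`, and
`s x y ∈ A` whenever `x ∈ A` or `y ∈ A`. -/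
def Semirecursive (A : Set ℕ) : Prop :=
  ∃ s : ℕ → ℕ → ℕ, Computable₂ s ∧
    ∀ x y, (s x y = x ∨ s x y = y) ∧ (x ∈ A ∨ y ∈ A → s x y ∈ A)

end Pool.Agent.Lib.MP_9a6b8c_lc
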