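import Mathlib

/-! Closure properties of recursively enumerable predicates. -/

namespace Pool.Agent.Lib.MP_9a6b8c_lc

open Nat.Partrec (Code)
open Nat.Partrec.Code

variable {α β γ : Type*} [Primcodable α] [Primcodable β] [Primcodable γ]

/-- Normal form of r.e. predicates, with a monotone primitive recursive matrix. -/
theorem re_normal {p : α → Prop} (hp : REPred p) :
    ∃ f : α × ℕ → Bool, Primrec f ∧ (∀ a n m, n ≤ m → f (a, n) = true → f (a, m) = true) ∧
      ∀ a, p a ↔ ∃ n, f (a, n) = true := by
  obtain ⟨c, hc⟩ := Code.exists_code.1 hp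
  refine ⟨fun x => (evaln x.2 c (Encodable.encode x.1)).isSome, ?_, ?_, ?_⟩
  · exact Primrec.option_isSome.comp
      (primrec_evaln.comp ((Primrec.snd.pair (Primrec.const c)).pair
        (Primrec.encode.comp Primrec.fst)))
  · intro a n m hnm h
    simp only [Option.isSome_iff_exists] at h ⊢
    obtain ⟨x, hx⟩ := h
    exact ⟨x, evaln_mono hnm hx⟩
  · intro a
    have h1 : p a ↔ (eval c (Encodable.encode a)).Dom := by
      rw [hc]
      simp only [Encodable.encodek, Part.coe_some, Part.bind_some, Part.map_Dom]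
      exact ⟨fun h => ⟨h, trivial⟩, fun h => h.1⟩
    rw [h1, Part.dom_iff_mem]
    constructor
    · rintro ⟨x, hx⟩
      obtain ⟨k, hk⟩ := evaln_complete.1 hx
      exact ⟨k, by simp only [Option.isSome_iff_exists]; exact ⟨x, hk⟩⟩
    · rintro ⟨n, hn⟩
      simp only [Option.isSome_iff_exists] at hn
      obtain ⟨x, hx⟩ := hn
      exact ⟨x, evaln_sound hx⟩

theorem re_of_exists {f : α × ℕ → Bool} (hf : Computable f) :
    REPred fun a => ∃ n, f (a, n) = true := by
  have h : Partrec (fun a : α => Nat.rfind fun n => Part.some (f (a, n))) :=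
    Partrec.rfind (Computable.to₂ hf).partrec₂
  refine h.dom_re.of_eq fun a => ?_
  refine Iff.trans Nat.rfind_dom ?_
  constructor
  · rintro ⟨n, hn, -⟩
    exact ⟨n, (Part.mem_some_iff.1 hn).symm⟩
  · rintro ⟨n, hn⟩
    exact ⟨n, Part.mem_some_iff.2 hn.symm, fun _ => trivial⟩

theorem re_comp {p : β → Prop} (hp : REPred p) {f : α → β} (hf : Computable f) :
    REPred fun a => p (f a) :=
  Partrec.comp hp hf

theorem re_and {p q : α → Prop} (hp : REPred p) (hq : REPred q) :
    REPred fun a => p a ∧ q a := by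
  obtain ⟨f, hf, fm, fs⟩ := re_normal hp
  obtain ⟨g, hg, gm, gs⟩ := re_normal hq
  refine (re_of_exists (f := fun x => f x && g x)
    (Primrec.and.comp hf hg).to_comp).of_eq fun a => ?_
  rw [fs, gs]
  constructor
  · rintro ⟨n, hn⟩
    simp only [Bool.and_eq_true] at hn
    exact ⟨⟨n, hn.1⟩, ⟨n, hn.2⟩⟩
  · rintro ⟨⟨n, hn⟩, ⟨m, hm⟩⟩
    refine ⟨max n m, ?_⟩
    simp only [Bool.and_eq_true]
    exact ⟨fm _ _ _ (le_max_left _ _) hn, gm _ _ _ (le_max_right _ _) hm⟩

theorem re_exists {p : α × β → Prop} (hp : REPred p) :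
    REPred fun a => ∃ b, p (a, b) := by
  obtain ⟨f, hf, fm, fs⟩ := re_normal hp
  have h1 : Primrec fun x : α × ℕ =>
      ((Encodable.decode (α := β) (Nat.unpair x.2).1).map
        fun b => f ((x.1, b), (Nat.unpair x.2).2)) := by
    refine Primrec.option_map ?_ ?_
    · exact Primrec.decode.comp (Primrec.fst.comp (Primrec.unpair.comp Primrec.snd))
    · exact (hf.comp (((Primrec.fst.comp Primrec.fst).pair Primrec.snd).pair
        (Primrec.snd.comp (Primrec.unpair.comp (Primrec.snd.comp Primrec.fst))))).to₂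
  have h2 : Primrec fun x : α × ℕ =>
      (((Encodable.decode (α := β) (Nat.unpair x.2).1).map
        fun b => f ((x.1, b), (Nat.unpair x.2).2)).getD false) :=
    Primrec.option_getD.comp h1 (Primrec.const false)
  refine (re_of_exists h2.to_comp).of_eq fun a => ?_
  constructor
  · rintro ⟨n, hn⟩
    cases hd : Encodable.decode (α := β) (Nat.unpair n).1 with
    | none => simp [hd] at hn
    | some b =>
      simp only [hd, Option.map_some, Option.getD_some] at hn
      exact ⟨b, (fs _).2 ⟨_, hn⟩⟩
  · rintro ⟨b, hb⟩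
    obtain ⟨n, hn⟩ := (fs _).1 hb
    exact ⟨Nat.pair (Encodable.encode b) n, by simp [hn]⟩

theorem re_prim {p : α → Prop} (hp : PrimrecPred p) : REPred p :=
  hp.computablePred.to_re

theorem re_forall_list {p : α × β → Prop} (hp : REPred p) {L : α → List β}
    (hL : Computable L) : REPred fun a => ∀ b ∈ L a, p (a, b) := by
  obtain ⟨f, hf, fm, fs⟩ := re_normal hp
  have h1 : PrimrecRel fun (l : List β) (c : α × ℕ) => ∀ b ∈ l, f ((c.1, b), c.2) = true := by
    refine PrimrecRel.forall_mem_list (R := fun b (c : α × ℕ) => f ((c.1, b), c.2) = true) ?_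
    have : Primrec fun x : β × (α × ℕ) => f ((x.2.1, x.1), x.2.2) :=
      hf.comp (((Primrec.fst.comp Primrec.snd).pair Primrec.fst).pair
        (Primrec.snd.comp Primrec.snd))
    exact Primrec.eq.comp this (Primrec.const true)
  have h2 : REPred fun x : List β × (α × ℕ) => ∀ b ∈ x.1, f ((x.2.1, b), x.2.2) = true :=
    re_prim h1
  have h3 : REPred fun x : α × ℕ => ∀ b ∈ L x.1, f ((x.1, b), x.2) = true :=
    re_comp h2 ((hL.comp Computable.fst).pair Computable.id)
  refine (re_exists h3).of_eq fun a => ?_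
  constructor
  · rintro ⟨n, hn⟩ b hb
    exact (fs _).2 ⟨n, hn b hb⟩
  · intro h
    have : ∀ l : List β, (∀ b ∈ l, p (a, b)) → ∃ n, ∀ b ∈ l, f ((a, b), n) = true := by
      intro l
      induction l with
      | nil => intro _; exact ⟨0, by simp⟩
      | cons b l ih =>
        intro hl
        obtain ⟨n, hn⟩ := ih fun b' hb' => hl b' (List.mem_cons_of_mem _ hb')
        obtain ⟨m, hm⟩ := (fs _).1 (hl b List.mem_cons_self)
        refine ⟨max n m, fun b' hb' => ?_⟩
        rcases List.mem_cons.1 hb' with rfl | hb'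
        · exact fm _ _ _ (le_max_right _ _) hm
        · exact fm _ _ _ (le_max_left _ _) (hn b' hb')
    exact this _ h

/-- Only countably many predicates are r.e. -/
theorem countable_re : Set.Countable {p : α → Prop | REPred p} := by
  have : ∀ p : {p : α → Prop | REPred p}, ∃ c : Code,
      ∀ a, p.1 a ↔ (eval c (Encodable.encode a)).Dom := by
    rintro ⟨p, hp⟩
    obtain ⟨c, hc⟩ := Code.exists_code.1 hp
    refine ⟨c, fun a => ?_⟩
    rw [hc]
    simp only [Encodable.encodek, Part.coe_some, Part.bind_some, Part.map_Dom]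
    exact ⟨fun h => ⟨h, trivial⟩, fun h => h.1⟩
  choose F hF using this
  have hinj : Function.Injective F := by
    intro p q h
    apply Subtype.ext
    funext a
    apply propext
    rw [hF p a, hF q a, h]
  exact hinj.countable

end Pool.Agent.Lib.MP_9a6b8c_lc
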