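import Mathlib
import Pool.Agent.Lib.MP_9a6b8c_lc.RE
import Pool.Agent.Lib.MP_9a6b8c_lc.Defs

namespace Pool.Agent.Lib.MP_9a6b8c_lc

/-- The list of elements of `D u`. -/
def els (u : ℕ) : List ℕ := (List.range u).filter (fun n => u.testBit n = true)

theorem mem_els {n u : ℕ} : n ∈ els u ↔ n ∈ D u := by
  simp only [els, D, List.mem_filter, List.mem_range, Set.mem_ofPred_eq, decide_eq_true_eq]
  constructor
  · exact fun h => h.2
  · intro h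
    exact ⟨lt_of_lt_of_le Nat.lt_two_pow_self (Nat.ge_two_pow_of_testBit h), h⟩

theorem D_zero : D 0 = ∅ := by
  ext n; simp [D]

theorem D_two_pow (n : ℕ) : D (2 ^ n) = {n} := by
  ext m
  simp only [D, Set.mem_ofPred_eq, Set.mem_singleton_iff]
  rw [Nat.testBit_two_pow]
  simp [eq_comm]

theorem D_inj {u v : ℕ} (h : D u = D v) : u = v := by
  apply Nat.eq_of_testBit_eq
  intro i
  have : i ∈ D u ↔ i ∈ D v := by rw [h]
  simp only [D, Set.mem_ofPred_eq] at this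
  cases h1 : u.testBit i <;> cases h2 : v.testBit i <;> simp_all

theorem exists_D (s : Finset ℕ) : ∃ w, D w = (s : Set ℕ) := by
  refine ⟨∑ i ∈ s, 2 ^ i, ?_⟩
  ext n
  simp only [D, Set.mem_ofPred_eq, Finset.mem_coe]
  rw [← Nat.mem_bitIndices, ← List.mem_toFinset, Finset.toFinset_bitIndices_sum_two_pow]

theorem primrec_pow : Primrec₂ (fun a b : ℕ => a ^ b) :=
  Primrec₂.unpaired'.1 Nat.Primrec.pow

theorem primrec_testBit : PrimrecRel fun n u : ℕ => u.testBit n = true := by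
  have h : Primrec₂ fun n u : ℕ => u / 2 ^ n % 2 :=
    (Primrec.nat_mod.comp (Primrec.nat_div.comp Primrec.snd
      (primrec_pow.comp (Primrec.const 2) Primrec.fst)) (Primrec.const 2)).to₂
  refine PrimrecRel.of_eq (Primrec.eq.comp₂ h (Primrec₂.const 1)) ?_
  intro n u
  rw [Nat.testBit_eq_decide_div_mod_eq]
  simp

theorem primrec_els : Primrec els := by
  classical
  have h := primrec_testBit.listFilter
  have h2 : Primrec fun u : ℕ => (List.range u).filter (fun n => u.testBit n = true) :=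
    h.comp Primrec.list_range Primrec.id
  exact h2

theorem primrec_mem_els {α : Type*} [Primcodable α] {f g : α → ℕ} (hf : Primrec f)
    (hg : Primrec g) : PrimrecPred fun a => f a ∈ els (g a) := by
  refine PrimrecPred.of_eq (primrec_testBit.comp hf hg) ?_
  intro a
  rw [mem_els]; rfl

/-- Composition of operators. -/
def compOp (Ψ Θ : Set (ℕ × ℕ)) : Set (ℕ × ℕ) :=
  {p | ∃ u, (p.1, u) ∈ Ψ ∧ ∃ l : List (ℕ × ℕ), l.map Prod.fst = els u ∧ (∀ q ∈ l, q ∈ Θ) ∧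
    (∀ n ∈ els p.2, ∃ q ∈ l, n ∈ els q.2) ∧ (∀ q ∈ l, ∀ n ∈ els q.2, n ∈ els p.2)}

theorem isEnumOp_comp {Ψ Θ : Set (ℕ × ℕ)} (h1 : IsEnumOp Ψ) (h2 : IsEnumOp Θ) :
    IsEnumOp (compOp Ψ Θ) := by
  unfold IsEnumOp compOp
  refine (re_exists (p := fun x : (ℕ × ℕ) × ℕ => (x.1.1, x.2) ∈ Ψ ∧ ∃ l : List (ℕ × ℕ),
    l.map Prod.fst = els x.2 ∧ (∀ q ∈ l, q ∈ Θ) ∧
    (∀ n ∈ els x.1.2, ∃ q ∈ l, n ∈ els q.2) ∧ (∀ q ∈ l, ∀ n ∈ els q.2, n ∈ els x.1.2)) ?_)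
  refine re_and (re_comp h1 (Primrec.to_comp ((Primrec.fst.comp Primrec.fst).pair Primrec.snd))) ?_
  refine (re_exists (p := fun x : ((ℕ × ℕ) × ℕ) × List (ℕ × ℕ) =>
    x.2.map Prod.fst = els x.1.2 ∧ (∀ q ∈ x.2, q ∈ Θ) ∧
    (∀ n ∈ els x.1.1.2, ∃ q ∈ x.2, n ∈ els q.2) ∧
      (∀ q ∈ x.2, ∀ n ∈ els q.2, n ∈ els x.1.1.2)) ?_)
  refine re_and (re_prim ?_) (re_and ?_ (re_and (re_prim ?_) (re_prim ?_)))
  · refine Primrec.eq.comp ?_ (primrec_els.comp (Primrec.snd.comp Primrec.fst))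
    exact Primrec.list_map Primrec.snd (Primrec.fst.comp Primrec.snd).to₂
  · exact re_forall_list (p := fun x : (((ℕ × ℕ) × ℕ) × List (ℕ × ℕ)) × (ℕ × ℕ) => x.2 ∈ Θ)
      (re_comp h2 Computable.snd) Computable.snd
  · have hR : PrimrecRel fun (l : List (ℕ × ℕ)) (n : ℕ) => ∃ q ∈ l, n ∈ els q.2 :=
      PrimrecRel.exists_mem_list (R := fun (q : ℕ × ℕ) (n : ℕ) => n ∈ els q.2)
        (primrec_mem_els Primrec.snd (Primrec.snd.comp Primrec.fst))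
    have hR2 : PrimrecRel fun (n : ℕ) (l : List (ℕ × ℕ)) => ∃ q ∈ l, n ∈ els q.2 :=
      hR.comp Primrec.snd Primrec.fst
    exact (PrimrecRel.forall_mem_list hR2).comp
      (primrec_els.comp (Primrec.snd.comp (Primrec.fst.comp Primrec.fst))) Primrec.snd
  · have hR : PrimrecRel fun (l : List ℕ) (w : ℕ) => ∀ n ∈ l, n ∈ els w :=
      PrimrecRel.forall_mem_list (R := fun (n w : ℕ) => n ∈ els w)
        (primrec_mem_els Primrec.fst Primrec.snd)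
    have hR2 : PrimrecRel fun (q : ℕ × ℕ) (w : ℕ) => ∀ n ∈ els q.2, n ∈ els w :=
      hR.comp (primrec_els.comp (Primrec.snd.comp Primrec.fst)) Primrec.snd
    exact (PrimrecRel.forall_mem_list hR2).comp Primrec.snd
      (Primrec.snd.comp (Primrec.fst.comp Primrec.fst))

theorem app_comp (Ψ Θ : Set (ℕ × ℕ)) (C : Set ℕ) :
    app (compOp Ψ Θ) C = app Ψ (app Θ C) := by
  ext x
  constructor
  · rintro ⟨w, ⟨u, hu, l, hl1, hl2, hl3, hl4⟩, hw⟩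
    refine ⟨u, hu, fun y hy => ?_⟩
    have hy' : y ∈ l.map Prod.fst := by rw [hl1]; exact mem_els.2 hy
    obtain ⟨q, hq, rfl⟩ := List.mem_map.1 hy'
    refine ⟨q.2, hl2 q hq, fun n hn => hw ?_⟩
    exact mem_els.1 (hl4 q hq n (mem_els.2 hn))
  · rintro ⟨u, hu, hD⟩
    have : ∀ y : ℕ, ∃ v, y ∈ D u → ((y, v) ∈ Θ ∧ D v ⊆ C) := by
      intro y
      by_cases hy : y ∈ D u
      · obtain ⟨v, hv⟩ := hD hy
        exact ⟨v, fun _ => hv⟩
      · exact ⟨0, fun h => absurd h hy⟩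
    choose v hv using this
    let l : List (ℕ × ℕ) := (els u).map fun y => (y, v y)
    obtain ⟨w, hw⟩ := exists_D ((l.flatMap fun q => els q.2).toFinset)
    have hw' : ∀ n, n ∈ D w ↔ ∃ q ∈ l, n ∈ els q.2 := by
      intro n
      rw [hw]
      simp
    refine ⟨w, ⟨u, hu, l, ?_, ?_, ?_, ?_⟩, ?_⟩
    · simp [l, Function.comp_def]
    · intro q hq
      obtain ⟨y, hy, rfl⟩ := List.mem_map.1 hq
      exact (hv y (mem_els.1 hy)).1
    · intro n hn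
      exact (hw' n).1 (mem_els.1 hn)
    · intro q hq n hn
      exact mem_els.2 ((hw' n).2 ⟨q, hq, hn⟩)
    · intro n hn
      obtain ⟨q, hq, hn⟩ := (hw' n).1 hn
      obtain ⟨y, hy, rfl⟩ := List.mem_map.1 hq
      exact (hv y (mem_els.1 hy)).2 (mem_els.1 hn)

theorem pc_unique {Ψ : Set (ℕ × ℕ)} (h : Ψ ∈ pcOps) {x u v : ℕ} (hu : (x, u) ∈ Ψ)
    (hv : (x, v) ∈ Ψ) : u = v :=
  D_inj (h.2 x ⟨u, hu, rfl⟩ ⟨v, hv, rfl⟩)

theorem comp_D {Ψ Θ : Set (ℕ × ℕ)} (hΨ : Ψ ∈ pcOps) (hΘ : Θ ∈ pcOps) {x w w' : ℕ}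
    (hw : (x, w) ∈ compOp Ψ Θ) (hw' : (x, w') ∈ compOp Ψ Θ) : D w ⊆ D w' := by
  obtain ⟨u, hu, l, hl1, hl2, hl3, hl4⟩ := hw
  obtain ⟨u', hu', l', hl1', hl2', hl3', hl4'⟩ := hw'
  have huu : u = u' := pc_unique hΨ hu hu'
  subst huu
  intro n hn
  obtain ⟨q, hq, hnq⟩ := hl3 n (mem_els.2 hn)
  have h1 : q.1 ∈ l'.map Prod.fst := by
    rw [hl1', ← hl1]; exact List.mem_map_of_mem hq
  obtain ⟨q', hq', he⟩ := List.mem_map.1 h1
  have h2 : q'.2 = q.2 := by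
    refine pc_unique hΘ (x := q'.1) (hl2' q' hq') ?_
    have := hl2 q hq
    rw [he]
    exact this
  refine mem_els.1 (hl4' q' hq' n ?_)
  rw [h2]
  exact hnq

theorem comp_mem_pc {Ψ Θ : Set (ℕ × ℕ)} (hΨ : Ψ ∈ pcOps) (hΘ : Θ ∈ pcOps) :
    compOp Ψ Θ ∈ pcOps := by
  refine ⟨isEnumOp_comp hΨ.1 hΘ.1, ?_⟩
  rintro x S ⟨w, hw, rfl⟩ S' ⟨w', hw', rfl⟩
  exact Set.Subset.antisymm (comp_D hΨ hΘ hw hw') (comp_D hΨ hΘ hw' hw)

theorem comp_mem_pm {Ψ Θ : Set (ℕ × ℕ)} (hΨ : Ψ ∈ pmOps) (hΘ : Θ ∈ pmOps) :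
    compOp Ψ Θ ∈ pmOps := by
  refine ⟨⟨isEnumOp_comp hΨ.1.1 hΘ.1.1, ?_⟩, comp_mem_pc hΨ.2 hΘ.2⟩
  rintro x S ⟨w, ⟨u, hu, l, hl1, hl2, hl3, hl4⟩, rfl⟩ n hn n' hn'
  obtain ⟨q, hq, hnq⟩ := hl3 n (mem_els.2 hn)
  obtain ⟨q', hq', hnq'⟩ := hl3 n' (mem_els.2 hn')
  have h1 : q.1 ∈ D u := by
    rw [← mem_els, ← hl1]; exact List.mem_map_of_mem hq
  have h2 : q'.1 ∈ D u := by
    rw [← mem_els, ← hl1]; exact List.mem_map_of_mem hq'
  have h3 : q.1 = q'.1 := hΨ.1.2 x _ ⟨u, hu, rfl⟩ h1 h2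
  have h4 : q.2 = q'.2 := by
    refine pc_unique hΘ.2 (x := q.1) (hl2 q hq) ?_
    have := hl2 q' hq'
    rw [h3]
    exact this
  refine hΘ.1.2 q.1 _ ⟨q.2, hl2 q hq, rfl⟩ (mem_els.1 hnq) ?_
  rw [h4]
  exact mem_els.1 hnq'

/-- The identity operator. -/
def idOp : Set (ℕ × ℕ) := {p | p.2 = 2 ^ p.1}

theorem idOp_mem_pm : idOp ∈ pmOps := by
  have h : IsEnumOp idOp :=
    re_prim (Primrec.eq.comp Primrec.snd (primrec_pow.comp (Primrec.const 2) Primrec.fst))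
  refine ⟨⟨h, ?_⟩, h, ?_⟩
  · rintro x S ⟨u, hu, rfl⟩
    simp only [idOp, Set.mem_ofPred_eq] at hu
    rw [hu, D_two_pow]
    exact Set.subsingleton_singleton
  · rintro x S ⟨u, hu, rfl⟩ S' ⟨u', hu', rfl⟩
    simp only [idOp, Set.mem_ofPred_eq] at hu hu'
    rw [hu, hu']

theorem app_idOp (A : Set ℕ) : app idOp A = A := by
  ext x
  simp [app, idOp, D_two_pow]

theorem pm_sub_pc {A B : Set ℕ} (h : Red pmOps A B) : Red pcOps A B := by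
  obtain ⟨Ψ, hΨ, h⟩ := h
  exact ⟨Ψ, hΨ.2, h⟩

theorem isEReducibility_pm : IsEReducibility pmOps where
  isEnumOp Ψ h := h.1.1
  refl A := ⟨idOp, idOp_mem_pm, (app_idOp A).symm⟩
  trans := by
    rintro A B C ⟨Ψ, hΨ, rfl⟩ ⟨Θ, hΘ, rfl⟩
    exact ⟨compOp Ψ Θ, comp_mem_pm hΨ hΘ, (app_comp _ _ _).symm⟩

theorem isEReducibility_pc : IsEReducibility pcOps where
  isEnumOp Ψ h := h.1
  refl A := ⟨idOp, idOp_mem_pm.2, (app_idOp A).symm⟩
  trans := by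
    rintro A B C ⟨Ψ, hΨ, rfl⟩ ⟨Θ, hΘ, rfl⟩
    exact ⟨compOp Ψ Θ, comp_mem_pc hΨ hΘ, (app_comp _ _ _).symm⟩

theorem isProper_pm : IsProper pmOps := by
  intro W hW
  refine ⟨⟨{p | p.1 ∈ W ∧ p.2 = 0}, ⟨⟨?_, ?_⟩, ?_, ?_⟩, ?_⟩, ⟨∅, ⟨⟨?_, ?_⟩, ?_, ?_⟩, ?_⟩⟩
  · exact re_and (re_comp hW Computable.fst) (re_prim (Primrec.eq.comp Primrec.snd (Primrec.const 0)))
  · rintro x S ⟨u, hu, rfl⟩
    rw [show u = 0 from hu.2, D_zero]
    exact Set.subsingleton_empty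
  · exact re_and (re_comp hW Computable.fst) (re_prim (Primrec.eq.comp Primrec.snd (Primrec.const 0)))
  · rintro x S ⟨u, hu, rfl⟩ S' ⟨u', hu', rfl⟩
    rw [show u = 0 from hu.2, show u' = 0 from hu'.2]
  · ext x
    simp [app, D_zero]
  · refine (re_prim (p := fun p : ℕ × ℕ => (0 : ℕ) = 1)
      (Primrec.eq.comp (Primrec.const 0) (Primrec.const 1))).of_eq ?_
    intro p; simp
  · rintro x S ⟨u, hu, rfl⟩
    exact absurd hu (Set.notMem_empty _)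
  · refine (re_prim (p := fun p : ℕ × ℕ => (0 : ℕ) = 1)
      (Primrec.eq.comp (Primrec.const 0) (Primrec.const 1))).of_eq ?_
    intro p; simp
  · rintro x S ⟨u, hu, rfl⟩
    exact absurd hu (Set.notMem_empty _)
  · ext x
    simp [app]

theorem isProper_pc : IsProper pcOps := by
  intro W hW
  obtain ⟨h1, h2⟩ := isProper_pm W hW
  exact ⟨pm_sub_pc h1, pm_sub_pc h2⟩

theorem re_of_red_empty {A : Set ℕ} (h : Red pcOps A ∅) : REPred fun n => n ∈ A := by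
  obtain ⟨Ψ, hΨ, rfl⟩ := h
  have h1 : REPred fun x : ℕ => (x, 0) ∈ Ψ :=
    re_comp hΨ.1 (Primrec.to_comp (Primrec.id.pair (Primrec.const 0)))
  refine h1.of_eq fun x => ?_
  constructor
  · intro h
    exact ⟨0, h, by rw [D_zero]⟩
  · rintro ⟨u, hu, hD⟩
    have : u = 0 := by
      apply D_inj
      rw [D_zero]
      exact Set.subset_empty_iff.1 hD
    rw [← this]
    exact hu

end Pool.Agent.Lib.MP_9a6b8c_lc
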