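import Mathlib
import Pool.Agent.Lib.MP_9a6b8c_lc.Basic

namespace Pool.Agent.Lib.MP_9a6b8c_lc

/-- Folding a computable function over a list is computable. -/
theorem computable_foldl {σ β : Type*} [Primcodable σ] [Primcodable β] {f : σ → β → σ}
    (hf : Computable₂ f) (init : σ) : Computable fun l : List β => l.foldl f init := by
  have h' : Computable₂ fun (l : List β) (p : ℕ × σ) =>
      (Option.casesOn (l[p.1]?) p.2 (fun b => f p.2 b) : σ) := by
    refine Computable.option_casesOn (o := fun x : List β × (ℕ × σ) => x.1[x.2.1]?)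
      (f := fun x : List β × (ℕ × σ) => x.2.2)
      (g := fun (x : List β × (ℕ × σ)) (b : β) => f x.2.2 b) ?_ ?_ ?_
    · exact Computable.list_getElem?.comp Computable.fst (Computable.fst.comp Computable.snd)
    · exact Computable.snd.comp Computable.snd
    · exact hf.comp (Computable.snd.comp (Computable.snd.comp Computable.fst)) Computable.snd
  have h := Computable.nat_rec (f := fun l : List β => l.length) (g := fun _ => init)
    Computable.list_length (Computable.const init) h'
  refine h.of_eq fun l => ?_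
  have key : ∀ n, n ≤ l.length →
      (Nat.rec (motive := fun _ => σ) init
        (fun y IH => (Option.casesOn (l[y]?) IH (fun b => f IH b) : σ)) n)
        = (l.take n).foldl f init := by
    intro n
    induction n with
    | zero => intro _; simp
    | succ n ih =>
      intro hn
      have hlt : n < l.length := hn
      have hg : l[n]? = some l[n] := List.getElem?_eq_getElem hlt
      show (Option.casesOn (l[n]?) _ (fun b => f _ b) : σ) = _
      rw [ih hlt.le, hg, List.take_add_one, hg, List.foldl_append]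
      rfl
  have := key l.length le_rfl
  rw [List.take_length] at this
  exact this

section Sel

variable (s : ℕ → ℕ → ℕ)

/-- First element of the set coded by `u` (only used for codes of singletons). -/
def hd (u : ℕ) : ℕ := (els u).headI

/-- Comparison of codes of sets with at most one element. -/
def T (v w : ℕ) : Bool :=
  cond (decide (w = 0)) true (cond (decide (v = 0)) false (decide (s (hd v) (hd w) = hd w)))

theorem computable_T (hs : Computable₂ s) : Computable₂ (T s) := by
  have h0 : Computable fun x : ℕ × ℕ => decide (x.2 = 0) :=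
    (Primrec.eq.decide.comp Primrec.snd (Primrec.const 0)).to_comp
  have h1 : Computable fun x : ℕ × ℕ => decide (x.1 = 0) :=
    (Primrec.eq.decide.comp Primrec.fst (Primrec.const 0)).to_comp
  have hhd : Computable hd := (Primrec.list_headI.comp primrec_els).to_comp
  have h2 : Computable fun x : ℕ × ℕ => decide (s (hd x.1) (hd x.2) = hd x.2) := by
    have ha : Computable fun x : ℕ × ℕ => s (hd x.1) (hd x.2) :=
      hs.comp (hhd.comp Computable.fst) (hhd.comp Computable.snd)
    have hb : Computable fun x : ℕ × ℕ => hd x.2 := hhd.comp Computable.snd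
    exact (Primrec.eq (α := ℕ)).decide.to_comp.comp ha hb
  exact Computable.cond h0 (Computable.const true) (Computable.cond h1 (Computable.const false) h2)

variable {s} {A : Set ℕ}

theorem D_eq_hd {v : ℕ} (hv : (D v).Subsingleton) (h0 : v ≠ 0) : D v = {hd v} := by
  have hne : els v ≠ [] := by
    intro h
    apply h0
    apply D_inj
    rw [D_zero]
    ext n
    rw [← mem_els, h]
    simp
  have hmem : hd v ∈ D v := by
    rw [← mem_els]
    unfold hd
    cases h : els v with
    | nil => exact absurd h hne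
    | cons a l => simp
  exact Set.Subsingleton.eq_singleton_of_mem hv hmem

theorem T_spec (hs : ∀ x y, (s x y = x ∨ s x y = y) ∧ (x ∈ A ∨ y ∈ A → s x y ∈ A))
    {v w : ℕ} (hv : (D v).Subsingleton) (hw : (D w).Subsingleton) :
    (T s v w = true → D v ⊆ A → D w ⊆ A) ∧ (T s v w = false → D w ⊆ A → D v ⊆ A) := by
  by_cases hw0 : w = 0
  · subst hw0
    simp [T, D_zero]
  · by_cases hv0 : v = 0
    · subst hv0
      simp [T, D_zero, hw0]
    · rw [D_eq_hd hv hv0, D_eq_hd hw hw0]
      simp only [T, hw0, hv0, decide_false, cond_false, decide_eq_true_eq, decide_eq_false_iff_not,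
        Set.singleton_subset_iff]
      obtain ⟨h1, h2⟩ := hs (hd v) (hd w)
      constructor
      · intro h hA
        have := h2 (Or.inl hA)
        rwa [h] at this
      · intro h hA
        have := h2 (Or.inr hA)
        rcases h1 with h1 | h1
        · rwa [h1] at this
        · exact absurd h1 h

variable (s)

/-- One step of the search for a least likely pair. -/
def step (q : Option (ℕ × ℕ)) (p : ℕ × ℕ) : Option (ℕ × ℕ) :=
  Option.casesOn q (some p) (fun r => cond (T s r.2 p.2) (some r) (some p))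

/-- The least likely pair of a list. -/
def mn (l : List (ℕ × ℕ)) : Option (ℕ × ℕ) := l.foldl (step s) none

/-- The code of the singleton of the first component of the least likely pair. -/
def G (l : List (ℕ × ℕ)) : ℕ := Option.casesOn (mn s l) 0 (fun q => 2 ^ q.1)

theorem computable_G (hs : Computable₂ s) : Computable (G s) := by
  have hstep : Computable₂ (step s) := by
    refine Computable.option_casesOn (o := fun x : Option (ℕ × ℕ) × (ℕ × ℕ) => x.1)
      (f := fun x => some x.2)
      (g := fun x r => cond (T s r.2 x.2.2) (some r) (some x.2)) Computable.fst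
      (Computable.option_some.comp Computable.snd) ?_
    refine Computable.cond ?_ (Computable.option_some.comp Computable.snd)
      (Computable.option_some.comp (Computable.snd.comp Computable.fst))
    exact (computable_T s hs).comp (Computable.snd.comp Computable.snd)
      (Computable.snd.comp (Computable.snd.comp Computable.fst))
  have hmn : Computable (mn s) := computable_foldl hstep none
  refine Computable.option_casesOn hmn (Computable.const 0) ?_
  exact (primrec_pow.comp (Primrec.const 2) (Primrec.fst.comp Primrec.snd)).to_comp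

variable {s}

theorem foldl_spec (hs : ∀ x y, (s x y = x ∨ s x y = y) ∧ (x ∈ A ∨ y ∈ A → s x y ∈ A))
    (l : List (ℕ × ℕ)) : ∀ q : ℕ × ℕ, (D q.2).Subsingleton →
    (∀ p ∈ l, (D p.2).Subsingleton) →
    ∃ r, l.foldl (step s) (some q) = some r ∧ (r = q ∨ r ∈ l) ∧
      (D r.2 ⊆ A → D q.2 ⊆ A ∧ ∀ p ∈ l, D p.2 ⊆ A) := by
  induction l with
  | nil => intro q _ _; exact ⟨q, rfl, Or.inl rfl, fun h => ⟨h, by simp⟩⟩
  | cons p l ih =>
    intro q hq hl
    have hp : (D p.2).Subsingleton := hl p List.mem_cons_self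
    have hl' : ∀ p ∈ l, (D p.2).Subsingleton := fun p' h' => hl p' (List.mem_cons_of_mem _ h')
    obtain ⟨t1, t2⟩ := T_spec (A := A) hs hq hp
    cases hT : T s q.2 p.2 with
    | true =>
      obtain ⟨r, h1, h2, h3⟩ := ih q hq hl'
      refine ⟨r, ?_, ?_, ?_⟩
      · rw [List.foldl_cons]
        have : step s (some q) p = some q := by simp [step, hT]
        rw [this, h1]
      · rcases h2 with h2 | h2
        · exact Or.inl h2
        · exact Or.inr (List.mem_cons_of_mem _ h2)
      · intro hr
        obtain ⟨h4, h5⟩ := h3 hr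
        refine ⟨h4, fun p' hp' => ?_⟩
        rcases List.mem_cons.1 hp' with rfl | hp'
        · exact t1 hT h4
        · exact h5 p' hp'
    | false =>
      obtain ⟨r, h1, h2, h3⟩ := ih p hp hl'
      refine ⟨r, ?_, ?_, ?_⟩
      · rw [List.foldl_cons]
        have : step s (some q) p = some p := by simp [step, hT]
        rw [this, h1]
      · rcases h2 with h2 | h2
        · exact Or.inr (h2 ▸ List.mem_cons_self)
        · exact Or.inr (List.mem_cons_of_mem _ h2)
      · intro hr
        obtain ⟨h4, h5⟩ := h3 hr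
        refine ⟨t2 hT h4, fun p' hp' => ?_⟩
        rcases List.mem_cons.1 hp' with rfl | hp'
        · exact h4
        · exact h5 p' hp'

/-- Main property of `G`: either the list is empty and the code is `0`, or the code is that of
the singleton of the first component of a least likely pair. -/
theorem G_spec (hs : ∀ x y, (s x y = x ∨ s x y = y) ∧ (x ∈ A ∨ y ∈ A → s x y ∈ A))
    (l : List (ℕ × ℕ)) (hl : ∀ p ∈ l, (D p.2).Subsingleton) :
    (l = [] ∧ D (G s l) = ∅) ∨
      ∃ r ∈ l, D (G s l) = {r.1} ∧ (D r.2 ⊆ A → ∀ p ∈ l, D p.2 ⊆ A) := by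
  cases l with
  | nil => left; exact ⟨rfl, by simp [G, mn, D_zero]⟩
  | cons p l =>
    right
    obtain ⟨r, h1, h2, h3⟩ := foldl_spec (A := A) hs l p (hl p List.mem_cons_self)
      (fun p' h' => hl p' (List.mem_cons_of_mem _ h'))
    have hm : mn s (p :: l) = some r := by
      show List.foldl (step s) none (p :: l) = some r
      rw [List.foldl_cons]
      exact h1
    refine ⟨r, ?_, ?_, ?_⟩
    · rcases h2 with h2 | h2
      · exact h2 ▸ List.mem_cons_self
      · exact List.mem_cons_of_mem _ h2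
    · simp only [G, hm]
      exact D_two_pow _
    · intro hr p' hp'
      obtain ⟨h4, h5⟩ := h3 hr
      rcases List.mem_cons.1 hp' with rfl | hp'
      · exact h4
      · exact h5 p' hp'

theorem G_subsingleton (hs : ∀ x y, (s x y = x ∨ s x y = y) ∧ (x ∈ A ∨ y ∈ A → s x y ∈ A))
    (l : List (ℕ × ℕ)) (hl : ∀ p ∈ l, (D p.2).Subsingleton) : (D (G s l)).Subsingleton := by
  rcases G_spec (A := A) hs l hl with ⟨-, h⟩ | ⟨r, -, h, -⟩
  · rw [h]; exact Set.subsingleton_empty
  · rw [h]; exact Set.subsingleton_singleton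

/-- A `pc`-reduction to a semirecursive set can be replaced by a partial many-one reduction. -/
theorem pm_of_pc_semirecursive (hA : Semirecursive A) {B : Set ℕ} (h : Red pcOps B A) :
    Red pmOps B A := by
  obtain ⟨s, hs, hsA⟩ := hA
  obtain ⟨Ψ, hΨ, rfl⟩ := h
  let g : ℕ → ℕ := fun u => G s ((els u).map fun a => (a, 2 ^ a))
  have hg : Computable g := by
    refine (computable_G s hs).comp (Primrec.to_comp ?_)
    exact Primrec.list_map primrec_els
      (Primrec.snd.pair (primrec_pow.comp (Primrec.const 2) Primrec.snd)).to₂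
  have hsub : ∀ u, ∀ p ∈ (els u).map (fun a => (a, 2 ^ a)), (D p.2).Subsingleton := by
    intro u p hp
    obtain ⟨a, -, rfl⟩ := List.mem_map.1 hp
    simp only [D_two_pow]
    exact Set.subsingleton_singleton
  have hgA : ∀ u, D (g u) ⊆ A ↔ D u ⊆ A := by
    intro u
    rcases G_spec (A := A) hsA _ (hsub u) with ⟨h1, h2⟩ | ⟨r, h1, h2, h3⟩
    · have h4 : els u = [] := by simpa using h1
      have h5 : D u = ∅ := by
        ext n; rw [← mem_els, h4]; simp
      show D (G s _) ⊆ A ↔ _
      rw [h2, h5]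
    · obtain ⟨a, ha, rfl⟩ := List.mem_map.1 h1
      show D (G s _) ⊆ A ↔ _
      rw [h2]
      simp only [D_two_pow, Set.singleton_subset_iff] at h3 ⊢
      constructor
      · intro haA n hn
        have := h3 haA (n, 2 ^ n) (List.mem_map.2 ⟨n, mem_els.2 hn, rfl⟩)
        simpa [D_two_pow] using this
      · intro hu
        exact hu (mem_els.1 ha)
  let Ψ' : Set (ℕ × ℕ) := {p | ∃ u, (p.1, u) ∈ Ψ ∧ p.2 = g u}
  have hΨ' : IsEnumOp Ψ' := by
    refine re_exists (p := fun x : (ℕ × ℕ) × ℕ => (x.1.1, x.2) ∈ Ψ ∧ x.1.2 = g x.2) ?_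
    refine re_and (re_comp hΨ.1
      (Primrec.to_comp ((Primrec.fst.comp Primrec.fst).pair Primrec.snd))) ?_
    exact re_comp (p := fun x : ℕ × ℕ => x.1 = x.2) (re_prim (Primrec.eq (α := ℕ)))
      ((Computable.snd.comp Computable.fst).pair (hg.comp Computable.snd))
  refine ⟨Ψ', ⟨⟨hΨ', ?_⟩, hΨ', ?_⟩, ?_⟩
  · rintro x S ⟨w, ⟨u, hu, hw⟩, rfl⟩
    simp only at hw
    rw [hw]
    exact G_subsingleton (A := A) hsA _ (hsub u)
  · rintro x S ⟨w, ⟨u, hu, hw⟩, rfl⟩ S' ⟨w', ⟨u', hu', hw'⟩, rfl⟩
    simp only at hw hw' hu hu'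
    rw [hw, hw', pc_unique hΨ hu hu']
  · ext x
    constructor
    · rintro ⟨u, hu, hD⟩
      exact ⟨g u, ⟨u, hu, rfl⟩, (hgA u).2 hD⟩
    · rintro ⟨w, ⟨u, hu, hw⟩, hD⟩
      simp only at hw hu
      rw [hw] at hD
      exact ⟨u, hu, (hgA u).1 hD⟩

theorem list_pairs_ext {Ψ : Set (ℕ × ℕ)} (hΨ : Ψ ∈ pcOps) :
    ∀ l l' : List (ℕ × ℕ), l.map Prod.fst = l'.map Prod.fst → (∀ q ∈ l, q ∈ Ψ) →
      (∀ q ∈ l', q ∈ Ψ) → l = l' := by
  intro l
  induction l with
  | nil =>
    intro l' h _ _
    cases l' with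
    | nil => rfl
    | cons q l' => simp at h
  | cons p l ih =>
    intro l' h h1 h2
    cases l' with
    | nil => simp at h
    | cons q l' =>
      simp only [List.map_cons, List.cons.injEq] at h
      have hp : p ∈ Ψ := h1 p List.mem_cons_self
      have hq : q ∈ Ψ := h2 q List.mem_cons_self
      have h3 : p = q := by
        refine Prod.ext h.1 (pc_unique hΨ (x := p.1) hp ?_)
        rw [h.1]
        exact hq
      rw [h3, ih l' h.2 (fun q hq => h1 q (List.mem_cons_of_mem _ hq))
        (fun q hq => h2 q (List.mem_cons_of_mem _ hq))]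

/-- If `A` is semirecursive, `B` is partial many-one reducible to `A` and `A` is `pc`-reducible
to `B`, then `A` is partial many-one reducible to `B`. -/
theorem pm_of_semirecursive_pc (hA : Semirecursive A) {B : Set ℕ} (hB : Red pmOps B A)
    (h : Red pcOps A B) : Red pmOps A B := by
  obtain ⟨s, hs, hsA⟩ := hA
  obtain ⟨Ψ, hΨ, hBA⟩ := hB
  obtain ⟨Θ, hΘ, hAB⟩ := h
  have hsub : ∀ l : List (ℕ × ℕ), (∀ q ∈ l, q ∈ Ψ) → ∀ q ∈ l, (D q.2).Subsingleton :=
    fun l hl q hq => hΨ.1.2 q.1 _ ⟨q.2, hl q hq, rfl⟩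
  let Θ' : Set (ℕ × ℕ) := {p | ∃ u, (p.1, u) ∈ Θ ∧ ∃ l : List (ℕ × ℕ),
    l.map Prod.fst = els u ∧ (∀ q ∈ l, q ∈ Ψ) ∧ p.2 = G s l}
  have hΘ' : IsEnumOp Θ' := by
    refine (re_exists (p := fun x : (ℕ × ℕ) × ℕ => (x.1.1, x.2) ∈ Θ ∧ ∃ l : List (ℕ × ℕ),
      l.map Prod.fst = els x.2 ∧ (∀ q ∈ l, q ∈ Ψ) ∧ x.1.2 = G s l) ?_)
    refine re_and (re_comp hΘ.1
      (Primrec.to_comp ((Primrec.fst.comp Primrec.fst).pair Primrec.snd))) ?_
    refine (re_exists (p := fun x : ((ℕ × ℕ) × ℕ) × List (ℕ × ℕ) =>
      x.2.map Prod.fst = els x.1.2 ∧ (∀ q ∈ x.2, q ∈ Ψ) ∧ x.1.1.2 = G s x.2) ?_)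
    refine re_and (re_prim ?_) (re_and ?_ ?_)
    · refine Primrec.eq.comp ?_ (primrec_els.comp (Primrec.snd.comp Primrec.fst))
      exact Primrec.list_map Primrec.snd (Primrec.fst.comp Primrec.snd).to₂
    · exact re_forall_list (p := fun x : (((ℕ × ℕ) × ℕ) × List (ℕ × ℕ)) × (ℕ × ℕ) => x.2 ∈ Ψ)
        (re_comp hΨ.1.1 Computable.snd) Computable.snd
    · exact re_comp (p := fun x : ℕ × ℕ => x.1 = x.2) (re_prim (Primrec.eq (α := ℕ)))
        ((Computable.snd.comp (Computable.fst.comp Computable.fst)).pair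
          ((computable_G s hs).comp Computable.snd))
  refine ⟨Θ', ⟨⟨hΘ', ?_⟩, hΘ', ?_⟩, ?_⟩
  · rintro x S ⟨w, ⟨u, hu, l, hl1, hl2, hw⟩, rfl⟩
    simp only at hw
    rw [hw]
    exact G_subsingleton (A := A) hsA _ (hsub l hl2)
  · rintro x S ⟨w, ⟨u, hu, l, hl1, hl2, hw⟩, rfl⟩ S' ⟨w', ⟨u', hu', l', hl1', hl2', hw'⟩, rfl⟩
    simp only at hw hw' hu hu'
    have huu : u = u' := pc_unique hΘ hu hu'
    subst huu
    have : l = l' := list_pairs_ext hΨ.2 l l' (hl1.trans hl1'.symm) hl2 hl2'
    rw [hw, hw', this]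
  · ext x
    constructor
    · intro hx
      rw [hAB] at hx
      obtain ⟨u, hu, hD⟩ := hx
      have : ∀ y : ℕ, ∃ v, y ∈ D u → ((y, v) ∈ Ψ ∧ D v ⊆ A) := by
        intro y
        by_cases hy : y ∈ D u
        · have := hD hy
          rw [hBA] at this
          obtain ⟨v, hv⟩ := this
          exact ⟨v, fun _ => hv⟩
        · exact ⟨0, fun h => absurd h hy⟩
      choose v hv using this
      let l : List (ℕ × ℕ) := (els u).map fun y => (y, v y)
      have hl2 : ∀ q ∈ l, q ∈ Ψ := by
        intro q hq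
        obtain ⟨y, hy, rfl⟩ := List.mem_map.1 hq
        exact (hv y (mem_els.1 hy)).1
      refine ⟨G s l, ⟨u, hu, l, ?_, hl2, rfl⟩, ?_⟩
      · simp [l, Function.comp_def]
      · rcases G_spec (A := A) hsA l (hsub l hl2) with ⟨-, h2⟩ | ⟨r, h1, h2, -⟩
        · rw [h2]; exact Set.empty_subset _
        · rw [h2, Set.singleton_subset_iff]
          obtain ⟨y, hy, rfl⟩ := List.mem_map.1 h1
          exact hD (mem_els.1 hy)
    · rintro ⟨w, ⟨u, hu, l, hl1, hl2, hw⟩, hD⟩
      simp only at hw hu
      rw [hw] at hD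
      rw [hAB]
      refine ⟨u, hu, fun b hb => ?_⟩
      have hb' : b ∈ l.map Prod.fst := by rw [hl1]; exact mem_els.2 hb
      obtain ⟨q, hq, rfl⟩ := List.mem_map.1 hb'
      rcases G_spec (A := A) hsA l (hsub l hl2) with ⟨h1, -⟩ | ⟨r, h1, h2, h3⟩
      · rw [h1] at hq
        exact absurd hq (List.not_mem_nil)
      · rw [h2, Set.singleton_subset_iff, hBA] at hD
        obtain ⟨v, hv, hvA⟩ := hD
        have hrv : r.2 = v := pc_unique hΨ.2 (x := r.1) (hl2 r h1) hv
        rw [← hrv] at hvA
        rw [hBA]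
        exact ⟨q.2, hl2 q hq, h3 hvA q hq⟩

end Sel

/-- The `pc`-degree of a semirecursive non-r.e. set is `pm`-contiguous. -/
theorem contiguous_of_semirecursive {A : Set ℕ} (hA : Semirecursive A)
    (hre : ¬ REPred fun n => n ∈ A) : IsContiguous pmOps pcOps (deg pcOps A) := by
  refine ⟨⟨A, rfl⟩, ?_, ?_⟩
  · intro h
    apply hre
    have : A ∈ deg pcOps A := ⟨isEReducibility_pc.refl A, isEReducibility_pc.refl A⟩
    rw [h] at this
    exact re_of_red_empty this.1
  · have key : ∀ B ∈ deg pcOps A, Red pmOps B A ∧ Red pmOps A B := by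
      rintro B ⟨h1, h2⟩
      have h3 := pm_of_pc_semirecursive hA h1
      exact ⟨h3, pm_of_semirecursive_pc hA h3 h2⟩
    intro B hB C hC
    obtain ⟨b1, b2⟩ := key B hB
    obtain ⟨c1, c2⟩ := key C hC
    exact ⟨isEReducibility_pm.trans _ _ _ b1 c2, isEReducibility_pm.trans _ _ _ c1 b2⟩

end Pool.Agent.Lib.MP_9a6b8c_lc
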