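import Mathlib
import Pool.Agent.Lib.MP_9a6b8c_lc.RE
import Pool.Agent.Lib.MP_9a6b8c_lc.Defs

/-! A co-r.e. semirecursive set that is not r.e. (true stages of an enumeration). -/

namespace Pool.Agent.Lib.MP_9a6b8c_lc

open Nat.Partrec (Code)
open Nat.Partrec.Code

theorem exists_re_not_core : ∃ K : ℕ → Prop, REPred K ∧ ¬ REPred fun n => ¬ K n := by
  refine ⟨fun n => (eval (Denumerable.ofNat Code n) 0).Dom, ?_, ?_⟩
  · exact re_comp (ComputablePred.halting_problem_re 0) (Primrec.ofNat Code).to_comp
  · intro h
    apply ComputablePred.halting_problem_not_re 0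
    have h2 : REPred fun c : Code => ¬ (eval (Denumerable.ofNat Code (Encodable.encode c)) 0).Dom :=
      re_comp h (Computable.encode (α := Code))
    refine h2.of_eq fun c => ?_
    rw [Denumerable.ofNat_encode]

/-- There is an injective primitive recursive `g` such that the set of `n` with `2 * n`
outside the range of `g` is not r.e. -/
theorem exists_enum : ∃ g : ℕ → ℕ, Primrec g ∧ Function.Injective g ∧
    ¬ REPred fun n : ℕ => ¬ ∃ s, g s = 2 * n := by
  classical
  obtain ⟨K, hK, hK'⟩ := exists_re_not_core
  obtain ⟨f, hf, fm, fs⟩ := re_normal hK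
  let P : ℕ × ℕ → Prop := fun x => f x = true ∧ (x.2 = 0 ∨ f (x.1, x.2 - 1) = false)
  have hP : PrimrecPred P := by
    refine PrimrecPred.and (Primrec.eq.comp hf (Primrec.const true)) (PrimrecPred.or
      (Primrec.eq.comp Primrec.snd (Primrec.const 0)) ?_)
    refine Primrec.eq.comp (hf.comp (Primrec.fst.pair ?_)) (Primrec.const false)
    exact Primrec.nat_sub.comp Primrec.snd (Primrec.const 1)
  have hPu : ∀ n k k', P (n, k) → P (n, k') → k = k' := by
    have : ∀ n k k', k < k' → P (n, k) → P (n, k') → False := by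
      rintro n k k' hlt ⟨h1, -⟩ ⟨-, h2⟩
      rcases h2 with h2 | h2
      · simp only at h2; omega
      · have := fm n k (k' - 1) (by omega) h1
        simp only at h2
        rw [this] at h2
        exact absurd h2 (by simp)
    intro n k k' h h'
    rcases lt_trichotomy k k' with h1 | h1 | h1
    · exact (this _ _ _ h1 h h').elim
    · exact h1
    · exact (this _ _ _ h1 h' h).elim
  have hPe : ∀ n, K n ↔ ∃ k, P (n, k) := by
    intro n
    rw [fs]
    constructor
    · intro h
      refine ⟨Nat.find h, Nat.find_spec h, ?_⟩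
      by_cases h0 : Nat.find h = 0
      · left; exact h0
      · right
        have := Nat.find_min h (m := Nat.find h - 1) (by omega)
        simpa using this
    · rintro ⟨k, hk, -⟩
      exact ⟨k, hk⟩
  let g : ℕ → ℕ := fun s => if P (Nat.unpair s) then 2 * (Nat.unpair s).1 else 2 * s + 1
  have hg : Primrec g := by
    refine Primrec.ite (hP.comp Primrec.unpair) ?_ ?_
    · exact Primrec.nat_mul.comp (Primrec.const 2) (Primrec.fst.comp Primrec.unpair)
    · exact Primrec.nat_add.comp (Primrec.nat_mul.comp (Primrec.const 2) Primrec.id)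
        (Primrec.const 1)
  refine ⟨g, hg, ?_, ?_⟩
  · intro s t h
    simp only [g] at h
    split_ifs at h with h1 h2 h2
    · have e1 : (Nat.unpair s).1 = (Nat.unpair t).1 := by omega
      have e2 : (Nat.unpair s).2 = (Nat.unpair t).2 := by
        refine hPu (Nat.unpair s).1 _ _ h1 ?_
        rw [e1]; exact h2
      rw [← Nat.pair_unpair s, ← Nat.pair_unpair t, e1, e2]
    · omega
    · omega
    · omega
  · intro h
    apply hK'
    refine h.of_eq fun n => not_congr ?_
    rw [hPe]
    constructor
    · rintro ⟨s, hs⟩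
      simp only [g] at hs
      split_ifs at hs with h1
      · refine ⟨(Nat.unpair s).2, ?_⟩
        have : (Nat.unpair s).1 = n := by omega
        rw [← this]
        exact h1
      · omega
    · rintro ⟨k, hk⟩
      refine ⟨Nat.pair n k, ?_⟩
      simp only [g, Nat.unpair_pair, hk, if_true]

/-- There is a semirecursive set that is co-r.e. but not r.e. -/
theorem exists_semirecursive : ∃ A : Set ℕ, Semirecursive A ∧
    (REPred fun n => n ∈ Aᶜ) ∧ ¬ REPred fun n => n ∈ A := by
  classical
  obtain ⟨g, hg, ginj, hnre⟩ := exists_enum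
  let A : Set ℕ := {s | ∀ t, s < t → g s < g t}
  refine ⟨A, ?_, ?_, ?_⟩
  · -- the selector
    let Q : ℕ → ℕ → Prop := fun x y => ∃ t < y + 1, x < t ∧ g t < g x
    have hQ : PrimrecRel Q := by
      have hR : PrimrecRel fun t x : ℕ => x < t ∧ g t < g x :=
        PrimrecPred.and (Primrec.nat_lt.comp Primrec.snd Primrec.fst)
          (Primrec.nat_lt.comp (hg.comp Primrec.fst) (hg.comp Primrec.snd))
      exact (PrimrecRel.exists_lt hR).comp (Primrec.succ.comp Primrec.snd) Primrec.fst
    let sel : ℕ → ℕ → ℕ := fun x y =>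
      if x ≤ y then (if Q x y then y else x) else (if Q y x then x else y)
    have hsel : Primrec₂ sel := by
      refine Primrec.ite (Primrec.nat_le.comp Primrec.fst Primrec.snd) ?_ ?_
      · exact Primrec.ite (hQ.comp Primrec.fst Primrec.snd) Primrec.snd Primrec.fst
      · exact Primrec.ite (hQ.comp Primrec.snd Primrec.fst) Primrec.fst Primrec.snd
    have key : ∀ x y, x ≤ y → (Q x y → x ∉ A) ∧ (¬ Q x y → y ∈ A → x ∈ A) := by
      intro x y hxy
      constructor
      · rintro ⟨t, ht, hxt, hgt⟩ hx
        exact absurd (hx t hxt) (by omega)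
      · intro hQ' hy t ht
        by_cases h : t ≤ y
        · by_contra hlt
          apply hQ'
          refine ⟨t, by omega, ht, ?_⟩
          have : g t ≠ g x := fun h => by
            have := ginj h
            omega
          omega
        · have h1 : g y < g t := hy t (by omega)
          rcases Nat.lt_or_ge x y with h2 | h2
          · by_contra hlt
            apply hQ'
            refine ⟨y, by omega, h2, ?_⟩
            omega
          · have : x = y := by omega
            rw [this]; exact h1
    refine ⟨sel, hsel.to_comp, ?_⟩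
    intro x y
    simp only [sel]
    split_ifs with h1 h2 h2
    · refine ⟨Or.inr rfl, ?_⟩
      rintro (h | h)
      · exact absurd h ((key x y h1).1 h2)
      · exact h
    · refine ⟨Or.inl rfl, ?_⟩
      rintro (h | h)
      · exact h
      · exact (key x y h1).2 h2 h
    · refine ⟨Or.inl rfl, ?_⟩
      rintro (h | h)
      · exact h
      · exact absurd h ((key y x (by omega)).1 h2)
    · refine ⟨Or.inr rfl, ?_⟩
      rintro (h | h)
      · exact (key y x (by omega)).2 h2 h
      · exact h
  · have h1 : REPred fun s : ℕ => ∃ t : ℕ, s < t ∧ g t ≤ g s := by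
      refine re_exists (p := fun x : ℕ × ℕ => x.1 < x.2 ∧ g x.2 ≤ g x.1) (re_prim ?_)
      exact PrimrecPred.and (Primrec.nat_lt.comp Primrec.fst Primrec.snd)
        (Primrec.nat_le.comp (hg.comp Primrec.snd) (hg.comp Primrec.fst))
    refine h1.of_eq fun s => ?_
    simp only [A, Set.mem_compl_iff, Set.mem_ofPred_eq]
    push Not
    rfl
  · intro hre
    -- `A` contains arbitrarily large numbers
    have hbig : ∀ N, ∃ s ∈ A, N ≤ s := by
      intro N
      have hne : ({s : ℕ | N ≤ s}).Nonempty := ⟨N, le_refl N⟩
      obtain ⟨s, hs, hmin⟩ := (measure g).wf.has_min {s : ℕ | N ≤ s} hne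
      refine ⟨s, ?_, hs⟩
      intro t ht
      have h1 : ¬ g t < g s := hmin t (le_trans (show N ≤ s from hs) ht.le)
      have h2 : g t ≠ g s := fun h => by
        have := ginj h
        omega
      omega
    have hbig2 : ∀ m, ∃ s ∈ A, m < g s := by
      intro m
      have hfin : ({s : ℕ | g s ≤ m}).Finite := by
        have : {s : ℕ | g s ≤ m} = g ⁻¹' (Set.Iic m) := rfl
        rw [this]
        exact (Set.finite_Iic m).preimage ginj.injOn
      obtain ⟨N, hN⟩ := hfin.bddAbove
      obtain ⟨s, hs, hs'⟩ := hbig (N + 1)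
      refine ⟨s, hs, ?_⟩
      by_contra hle
      have := hN (show g s ≤ m by omega)
      omega
    apply hnre
    have h1 : REPred fun n : ℕ => ∃ s : ℕ, s ∈ A ∧ (2 * n < g s ∧ ∀ t < s + 1, g t ≠ 2 * n) := by
      refine re_exists (p := fun x : ℕ × ℕ => x.2 ∈ A ∧
        (2 * x.1 < g x.2 ∧ ∀ t < x.2 + 1, g t ≠ 2 * x.1)) ?_
      refine re_and (re_comp hre Computable.snd) (re_prim (PrimrecPred.and ?_ ?_))
      · exact Primrec.nat_lt.comp (Primrec.nat_mul.comp (Primrec.const 2) Primrec.fst)
          (hg.comp Primrec.snd)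
      · have hR : PrimrecRel fun t n : ℕ => g t ≠ 2 * n :=
          PrimrecPred.not (Primrec.eq.comp (hg.comp Primrec.fst)
            (Primrec.nat_mul.comp (Primrec.const 2) Primrec.snd))
        exact (PrimrecRel.forall_lt hR).comp (Primrec.succ.comp Primrec.snd) Primrec.fst
    refine h1.of_eq fun n => ?_
    constructor
    · rintro ⟨s, hs, hlt, hall⟩ ⟨t, ht⟩
      by_cases h : t ≤ s
      · exact hall t (by omega) ht
      · have := hs t (by omega)
        omega
    · intro h
      obtain ⟨s, hs, hlt⟩ := hbig2 (2 * n)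
      exact ⟨s, hs, hlt, fun t _ ht => h ⟨t, ht⟩⟩

end Pool.Agent.Lib.MP_9a6b8c_lc
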