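import Mathlib
import Pool.Agent.Lib.MP_9a6b8c_lc.Basic

namespace Pool.Agent.Lib.MP_9a6b8c_lc

/-- The operator taking `B` to the set of all codes of pairs of elements of `B`. -/
def sqOp : Set (ℕ × ℕ) :=
  {p | (∀ n ∈ els p.2, n = (Nat.unpair p.1).1 ∨ n = (Nat.unpair p.1).2) ∧
    (Nat.unpair p.1).1 ∈ els p.2 ∧ (Nat.unpair p.1).2 ∈ els p.2}

theorem sqOp_D {x u : ℕ} (h : (x, u) ∈ sqOp) :
    D u = {(Nat.unpair x).1, (Nat.unpair x).2} := by
  obtain ⟨h1, h2, h3⟩ := h
  ext n
  simp only [Set.mem_insert_iff, Set.mem_singleton_iff]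
  constructor
  · intro hn
    exact h1 n (mem_els.2 hn)
  · rintro (h | h)
    · rw [h]; exact mem_els.1 h2
    · rw [h]; exact mem_els.1 h3

theorem sqOp_mem : sqOp ∈ pcOps := by
  have p1 : Primrec fun p : ℕ × ℕ => (Nat.unpair p.1).1 :=
    Primrec.fst.comp (Primrec.unpair.comp Primrec.fst)
  have p2 : Primrec fun p : ℕ × ℕ => (Nat.unpair p.1).2 :=
    Primrec.snd.comp (Primrec.unpair.comp Primrec.fst)
  refine ⟨re_prim ?_, ?_⟩
  · refine PrimrecPred.and ?_ (PrimrecPred.and (primrec_mem_els p1 Primrec.snd)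
      (primrec_mem_els p2 Primrec.snd))
    have hR : PrimrecRel fun (n : ℕ) (c : ℕ × ℕ) => n = c.1 ∨ n = c.2 :=
      PrimrecPred.or (Primrec.eq.comp Primrec.fst (Primrec.fst.comp Primrec.snd))
        (Primrec.eq.comp Primrec.fst (Primrec.snd.comp Primrec.snd))
    exact (PrimrecRel.forall_mem_list hR).comp (primrec_els.comp Primrec.snd) (p1.pair p2)
  · rintro x S ⟨u, hu, rfl⟩ S' ⟨u', hu', rfl⟩
    rw [sqOp_D hu, sqOp_D hu']

theorem mem_app_sqOp {B : Set ℕ} {x : ℕ} :
    x ∈ app sqOp B ↔ (Nat.unpair x).1 ∈ B ∧ (Nat.unpair x).2 ∈ B := by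
  constructor
  · rintro ⟨u, hu, hD⟩
    rw [sqOp_D hu] at hD
    exact ⟨hD (by simp), hD (by simp)⟩
  · rintro ⟨h1, h2⟩
    obtain ⟨w, hw⟩ := exists_D {(Nat.unpair x).1, (Nat.unpair x).2}
    have hw' : ∀ n, n ∈ els w ↔ n = (Nat.unpair x).1 ∨ n = (Nat.unpair x).2 := by
      intro n
      rw [mem_els, hw]
      simp
    refine ⟨w, ⟨fun n hn => (hw' n).1 hn, (hw' _).2 (Or.inl rfl), (hw' _).2 (Or.inr rfl)⟩, ?_⟩
    intro n hn
    rcases (hw' n).1 (mem_els.2 hn) with h | h
    · rw [h]; exact h1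
    · rw [h]; exact h2

/-- The set with characteristic function `X`. -/
def S (X : ℕ → Bool) : Set ℕ := {n | X n = true}

theorem isClopen_coord (n : ℕ) : IsClopen {X : ℕ → Bool | X n = true} := by
  have h : Continuous fun X : ℕ → Bool => X n := continuous_apply n
  exact (isClopen_discrete ({true} : Set Bool)).preimage h

theorem isClopen_D (u : ℕ) : IsClopen {X : ℕ → Bool | D u ⊆ S X} := by
  have : {X : ℕ → Bool | D u ⊆ S X} = ⋂ n ∈ (els u).toFinset, {X : ℕ → Bool | X n = true} := by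
    ext X
    simp only [Set.mem_ofPred_eq, Set.mem_iInter, List.mem_toFinset]
    constructor
    · intro h n hn
      exact h (mem_els.1 hn)
    · intro h n hn
      exact h n (mem_els.2 hn)
  rw [this]
  exact isClopen_biInter_finset fun n _ => isClopen_coord n

theorem isClopen_app {Ψ : Set (ℕ × ℕ)} (hΨ : Ψ ∈ pcOps) (x : ℕ) :
    IsClopen {X : ℕ → Bool | x ∈ app Ψ (S X)} := by
  by_cases h : ∃ u, (x, u) ∈ Ψ
  · obtain ⟨u, hu⟩ := h
    have : {X : ℕ → Bool | x ∈ app Ψ (S X)} = {X : ℕ → Bool | D u ⊆ S X} := by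
      ext X
      simp only [Set.mem_ofPred_eq]
      constructor
      · rintro ⟨v, hv, hD⟩
        rwa [pc_unique hΨ hu hv]
      · intro hD
        exact ⟨u, hu, hD⟩
    rw [this]
    exact isClopen_D u
  · have : {X : ℕ → Bool | x ∈ app Ψ (S X)} = ∅ := by
      ext X
      simp only [Set.mem_ofPred_eq, Set.mem_empty_iff_false, iff_false]
      rintro ⟨v, hv, hD⟩
      exact h ⟨v, hv⟩
    rw [this]
    exact isClopen_empty

theorem isClosed_eq_app {Ψ Θ : Set (ℕ × ℕ)} (hΨ : Ψ ∈ pcOps) (hΘ : Θ ∈ pcOps) :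
    IsClosed {X : ℕ → Bool | app Θ (S X) = app Ψ (S X)} := by
  have : {X : ℕ → Bool | app Θ (S X) = app Ψ (S X)} =
      ⋂ x : ℕ, (({X : ℕ → Bool | x ∈ app Θ (S X)} ∩ {X | x ∈ app Ψ (S X)}) ∪
        ({X : ℕ → Bool | x ∈ app Θ (S X)}ᶜ ∩ {X | x ∈ app Ψ (S X)}ᶜ)) := by
    ext X
    simp only [Set.mem_ofPred_eq, Set.mem_iInter, Set.mem_union, Set.mem_inter_iff,
      Set.mem_compl_iff]
    constructor
    · intro h x
      rw [h]
      tauto
    · intro h
      ext x
      have := h x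
      tauto
  rw [this]
  refine isClosed_iInter fun x => IsClopen.isClosed ?_
  exact ((isClopen_app hΘ x).inter (isClopen_app hΨ x)).union
    ((isClopen_app hΘ x).compl.inter (isClopen_app hΨ x).compl)

theorem countable_pm : Set.Countable pmOps := by
  have h := countable_re (α := ℕ × ℕ)
  exact h.mono fun Ψ hΨ => hΨ.1.1

/-- `≤_pc` and `≤_pm` are distinct. -/
theorem exists_pc_not_pm : ∃ A B : Set ℕ, Red pcOps A B ∧ ¬ Red pmOps A B := by
  by_contra hcon
  push Not at hcon
  have h1 : ∀ X : ℕ → Bool, ∃ Ψ ∈ pmOps, app sqOp (S X) = app Ψ (S X) := fun X =>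
    hcon _ _ ⟨sqOp, sqOp_mem, rfl⟩
  have : Countable pmOps := countable_pm.to_subtype
  have h2 : ⋃ Ψ : pmOps, {X : ℕ → Bool | app sqOp (S X) = app Ψ.1 (S X)} = Set.univ := by
    ext X
    simp only [Set.mem_iUnion, Set.mem_univ, iff_true]
    obtain ⟨Ψ, hΨ, h⟩ := h1 X
    exact ⟨⟨Ψ, hΨ⟩, h⟩
  obtain ⟨⟨Ψ, hΨ⟩, X₀, hX₀⟩ := nonempty_interior_of_iUnion_of_closed
    (fun Ψ : pmOps => isClosed_eq_app Ψ.2.2 sqOp_mem) h2
  have hopen : IsOpen (interior {X : ℕ → Bool | app sqOp (S X) = app Ψ (S X)}) :=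
    isOpen_interior
  rw [isOpen_pi_iff] at hopen
  obtain ⟨I, U, hU, hIU⟩ := hopen X₀ hX₀
  have h3 : ∀ X : ℕ → Bool, (∀ n ∈ I, X n = X₀ n) → app sqOp (S X) = app Ψ (S X) := by
    intro X hX
    have : X ∈ (I : Set ℕ).pi U := by
      intro n hn
      rw [hX n hn]
      exact (hU n hn).2
    have h5 : X ∈ {X : ℕ → Bool | app sqOp (S X) = app Ψ (S X)} := interior_subset (hIU this)
    exact h5
  obtain ⟨a, ha⟩ := Infinite.exists_notMem_finset I
  obtain ⟨b, hb⟩ := Infinite.exists_notMem_finset (insert a I)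
  have hab : b ≠ a := fun h => hb (by rw [h]; exact Finset.mem_insert_self _ _)
  have hbI : b ∉ I := fun h => hb (Finset.mem_insert_of_mem h)
  have h4 : ∀ i j : Bool, ((i = true ∧ j = true) ↔
      Nat.pair a b ∈ app Ψ (S (Function.update (Function.update X₀ a i) b j))) := by
    intro i j
    have h5 := h3 (Function.update (Function.update X₀ a i) b j) (by
      intro n hn
      have hnb : n ≠ b := fun h => hbI (h ▸ hn)
      have hna : n ≠ a := fun h => ha (h ▸ hn)
      rw [Function.update_of_ne hnb, Function.update_of_ne hna])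
    rw [← h5, mem_app_sqOp]
    simp only [Nat.unpair_pair, S, Set.mem_ofPred_eq]
    rw [Function.update_self, Function.update_of_ne (Ne.symm hab), Function.update_self]
  by_cases h : ∃ u, (Nat.pair a b, u) ∈ Ψ
  · obtain ⟨u, hu⟩ := h
    have h6 : ∀ X : ℕ → Bool, Nat.pair a b ∈ app Ψ (S X) ↔ D u ⊆ S X := by
      intro X
      constructor
      · rintro ⟨v, hv, hD⟩
        rwa [pc_unique hΨ.2 hu hv]
      · intro hD
        exact ⟨u, hu, hD⟩
    simp only [h6] at h4
    rcases Set.eq_empty_or_nonempty (D u) with he | ⟨z, hz⟩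
    · have := (h4 false false).2 (by rw [he]; exact Set.empty_subset _)
      exact absurd this.1 (by simp)
    · have hz' : D u = {z} := (hΨ.1.2 _ _ ⟨u, hu, rfl⟩).eq_singleton_of_mem hz
      rw [hz'] at h4
      simp only [S, Set.singleton_subset_iff, Set.mem_ofPred_eq] at h4
      by_cases hza : z = b
      · have := (h4 false true).2 (by rw [hza, Function.update_self])
        exact absurd this.1 (by simp)
      · by_cases hzb : z = a
        · have := (h4 true false).2 (by
            rw [hzb, Function.update_of_ne (Ne.symm hab), Function.update_self])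
          exact absurd this.2 (by simp)
        · have e1 := (h4 true true).1 ⟨rfl, rfl⟩
          rw [Function.update_of_ne hza, Function.update_of_ne hzb] at e1
          have := (h4 false false).2 (by
            rw [Function.update_of_ne hza, Function.update_of_ne hzb]; exact e1)
          exact absurd this.1 (by simp)
  · obtain ⟨v, hv, -⟩ := (h4 true true).1 ⟨rfl, rfl⟩
    exact h ⟨v, hv⟩

end Pool.Agent.Lib.MP_9a6b8c_lc
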